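import Pool.Agent.N585.PCG.Red
import Pool.Agent.H495R3.CySat2

/-!
# From cyclic orderings to apartness constraints

The item `x` has the two points `2 x` and `2 x + 1`; the points of the item `0` are the two ends of
the line.
-/

set_option autoImplicit false

namespace Pool.Agent.N585.PCG

open Pool.Agent.R39.PCG Pool.Agent.H622R2 Pool.Agent.H495R3.Cy Pool.Agent.NPC

/-- The constraints. -/
def cL (M : ℕ) (Q : List Quad) : List Cn :=
  (List.range M).map (fun x => ((0, 2 * (x + 1)), (2 * (x + 1) + 1, 1))) ++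
    ((List.range M).flatMap (fun x => (List.range M).flatMap (fun y =>
      if x = y then [] else
        [((2 * (x + 1), 2 * (x + 1) + 1), (2 * (y + 1), 2 * (y + 1) + 1))])) ++
    Q.map (fun q => ((2 * q.2.1, 2 * q.2.2.2), (2 * q.2.2.1, 2 * q.2.2.1 + 1))))

/-- Well-formed quadruples. -/
def QZ (M : ℕ) (Q : List Quad) : Prop :=
  ∀ q ∈ Q, q.1 = 0 ∧ (0 < q.2.1 ∧ q.2.1 ≤ M) ∧ (0 < q.2.2.1 ∧ q.2.2.1 ≤ M) ∧
    (0 < q.2.2.2 ∧ q.2.2.2 ≤ M) ∧ q.2.1 ≠ q.2.2.1 ∧ q.2.1 ≠ q.2.2.2 ∧ q.2.2.1 ≠ q.2.2.2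

variable {M : ℕ} {Q : List Quad}

theorem mem_cL (p : Cn) : p ∈ cL M Q ↔
    (∃ x, 0 < x ∧ x ≤ M ∧ p = ((0, 2 * x), (2 * x + 1, 1))) ∨
    (∃ x y, 0 < x ∧ x ≤ M ∧ 0 < y ∧ y ≤ M ∧ x ≠ y ∧
      p = ((2 * x, 2 * x + 1), (2 * y, 2 * y + 1))) ∨
    ∃ q ∈ Q, p = ((2 * q.2.1, 2 * q.2.2.2), (2 * q.2.2.1, 2 * q.2.2.1 + 1)) := by
  unfold cL
  rw [List.mem_append, List.mem_append, List.mem_map, List.mem_map, List.mem_flatMap]
  constructor
  · rintro (⟨x, hx, rfl⟩ | ⟨x, hx, h⟩ | ⟨q, hq, rfl⟩)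
    · rw [List.mem_range] at hx
      exact Or.inl ⟨x + 1, by omega, by omega, rfl⟩
    · rw [List.mem_flatMap] at h
      obtain ⟨y, hy, h⟩ := h
      rw [List.mem_range] at hx hy
      split_ifs at h with hxy
      · simp at h
      · rw [List.mem_singleton] at h
        exact Or.inr (Or.inl ⟨x + 1, y + 1, by omega, by omega, by omega, by omega, by omega, h⟩)
    · exact Or.inr (Or.inr ⟨q, hq, rfl⟩)
  · rintro (⟨x, hx, hx', rfl⟩ | ⟨x, y, hx, hx', hy, hy', hxy, rfl⟩ | ⟨q, hq, rfl⟩)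
    · refine Or.inl ⟨x - 1, List.mem_range.2 (by omega), ?_⟩
      rw [Nat.sub_add_cancel hx]
    · refine Or.inr (Or.inl ⟨x - 1, List.mem_range.2 (by omega), ?_⟩)
      rw [List.mem_flatMap]
      refine ⟨y - 1, List.mem_range.2 (by omega), ?_⟩
      rw [if_neg (by omega), List.mem_singleton, Nat.sub_add_cancel hx, Nat.sub_add_cancel hy]
    · exact Or.inr (Or.inr ⟨q, hq, rfl⟩)

theorem cL_ok (hQ : QZ M Q) : AOk (2 * (M + 1)) (cL M Q) := by
  intro p hp
  rw [mem_cL] at hp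
  rcases hp with ⟨x, hx, hx', rfl⟩ | ⟨x, y, hx, hx', hy, hy', hxy, rfl⟩ | ⟨q, hq, rfl⟩
  · simp only
    omega
  · simp only
    omega
  · obtain ⟨h0, ⟨h1, h2⟩, ⟨h3, h4⟩, ⟨h5, h6⟩, h7, h8, h9⟩ := hQ q hq
    simp only
    omega

/-- Soundness. -/
theorem solv_of_q4 (hQ : QZ M Q) {d : ℕ → ℕ → ℝ} (h : FP d)
    (hA : ∀ q ∈ cL M Q, Q4 d q.1.1 q.1.2 q.2.1 q.2.2) : Solv (List.range (M + 1)) Q := by
  classical
  obtain ⟨P, hP⟩ : ∃ P : ℕ → ℝ, ∀ x, P x = pj d 0 1 (2 * x) := ⟨_, fun _ => rfl⟩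
  obtain ⟨P', hP'⟩ : ∃ P' : ℕ → ℝ, ∀ x, P' x = pj d 0 1 (2 * x + 1) := ⟨_, fun _ => rfl⟩
  have h1 : ∀ x, 0 < x → x ≤ M → P x < P' x := by
    intro x hx hx'
    have := (hA _ ((mem_cL _).2 (Or.inl ⟨x, hx, hx', rfl⟩))).1
    simp only at this
    rw [hP, hP']
    unfold pj
    linarith
  have h2 : ∀ x y, 0 < x → x ≤ M → 0 < y → y ≤ M → x ≠ y → P' y < P x ∨ P' x < P y := by
    intro x y hx hx' hy hy' hxy
    have := hA _ ((mem_cL _).2 (Or.inr (Or.inl ⟨x, y, hx, hx', hy, hy', hxy, rfl⟩)))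
    simp only at this
    have g1 := h1 x hx hx'
    have g2 := h1 y hy hy'
    rw [hP, hP'] at g1 g2 ⊢
    rw [hP' x, hP y]
    exact this.disj h 0 1 g1 g2
  have hne : ∀ x y, 0 < x → x ≤ M → 0 < y → y ≤ M → x ≠ y → P x ≠ P y := by
    intro x y hx hx' hy hy' hxy he
    have g1 := h1 x hx hx'
    have g2 := h1 y hy hy'
    rcases h2 x y hx hx' hy hy' hxy with g3 | g3 <;> linarith
  have h3 : ∀ q ∈ Q, (P q.2.1 < P q.2.2.1 ↔ P q.2.2.2 < P q.2.2.1) := by
    intro q hq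
    obtain ⟨k0, ⟨k1, k2⟩, ⟨k3, k4⟩, ⟨k5, k6⟩, k7, k8, k9⟩ := hQ q hq
    have hq4 := hA _ ((mem_cL _).2 (Or.inr (Or.inr ⟨q, hq, rfl⟩)))
    simp only at hq4
    have g := h1 _ k3 k4
    have e1 := hne _ _ k1 k2 k5 k6 k8
    rcases lt_or_gt_of_ne e1 with e1 | e1
    · have g1 := hq4.disj h 0 1 (by rw [← hP, ← hP]; exact e1) (by rw [← hP, ← hP']; exact g)
      rw [← hP, ← hP, ← hP, ← hP'] at g1
      constructor <;> intro g2 <;> rcases g1 with g1 | g1 <;> linarith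
    · have g1 := hq4.left h |>.disj h 0 1 (by rw [← hP, ← hP]; exact e1)
        (by rw [← hP, ← hP']; exact g)
      rw [← hP, ← hP, ← hP, ← hP'] at g1
      constructor <;> intro g2 <;> rcases g1 with g1 | g1 <;> linarith
  -- the ranks
  obtain ⟨r, hr⟩ : ∃ r : ℕ → ℕ, ∀ x, r x =
      ((Finset.range (M + 1)).filter (fun y => 0 < y ∧ P y < P x)).card := ⟨_, fun _ => rfl⟩
  have hr1 : ∀ x y, 0 < x → x ≤ M → (r x < r y ↔ P x < P y) := by
    intro x y hx hx'
    rw [hr, hr]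
    constructor
    · intro hlt
      by_contra hcon
      push Not at hcon
      refine absurd hlt (not_lt.2 (Finset.card_le_card ?_))
      intro z hz
      rw [Finset.mem_filter] at hz ⊢
      exact ⟨hz.1, hz.2.1, lt_of_lt_of_le hz.2.2 hcon⟩
    · intro hlt
      refine Finset.card_lt_card ?_
      rw [Finset.ssubset_iff_of_subset]
      · refine ⟨x, ?_, ?_⟩
        · rw [Finset.mem_filter, Finset.mem_range]
          exact ⟨by omega, hx, hlt⟩
        · rw [Finset.mem_filter]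
          exact fun h => lt_irrefl _ h.2.2
      · intro z hz
        rw [Finset.mem_filter] at hz ⊢
        exact ⟨hz.1, hz.2.1, hz.2.2.trans hlt⟩
  refine ⟨fun x => if x = 0 then -1 else (r x : ℤ), ?_, ?_⟩
  · intro x hx y hy hxy
    simp only [Set.mem_ofPred_eq, List.mem_range] at hx hy
    simp only at hxy
    by_cases hx0 : x = 0
    · by_cases hy0 : y = 0
      · rw [hx0, hy0]
      · rw [if_pos hx0, if_neg hy0] at hxy
        omega
    · by_cases hy0 : y = 0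
      · rw [if_pos hy0, if_neg hx0] at hxy
        omega
      · rw [if_neg hx0, if_neg hy0] at hxy
        by_contra hne'
        rcases lt_or_gt_of_ne (hne x y (by omega) (by omega) (by omega) (by omega) hne') with h | h
        · have := (hr1 x y (by omega) (by omega)).2 h
          omega
        · have := (hr1 y x (by omega) (by omega)).2 h
          omega
  · intro q hq
    obtain ⟨k0, ⟨k1, k2⟩, ⟨k3, k4⟩, ⟨k5, k6⟩, k7, k8, k9⟩ := hQ q hq
    have := h3 q hq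
    rw [← hr1 _ _ k1 k2, ← hr1 _ _ k5 k6] at this
    unfold NonSep H495R3.Cy.Btw
    simp only
    rw [if_pos k0, if_neg (by omega), if_neg (by omega), if_neg (by omega)]
    omega

/-- Completeness. -/
theorem gen_of_solv (hQ : QZ M Q) (h : Solv (List.range (M + 1)) Q) {K : ℕ} (hK : 4 * M + 8 ≤ K) :
    GenPCGRecognition (redI (2 * (M + 1)) K (cL M Q)) := by
  classical
  obtain ⟨g, hg, hs⟩ := h
  obtain ⟨C, hC⟩ : ∃ C : ℤ, ∀ x < M + 1, -C ≤ g x ∧ g x ≤ C := by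
    obtain ⟨C, hC⟩ := (((Finset.range (M + 1)).image (fun x => |g x|)).finite_toSet).bddAbove
    refine ⟨C, fun x hx => abs_le.1 (hC ?_)⟩
    rw [Finset.mem_coe, Finset.mem_image]
    exact ⟨x, Finset.mem_range.2 hx, rfl⟩
  obtain ⟨P, hP⟩ : ∃ P : ℕ → ℤ, ∀ x, P x = if g 0 < g x then g x else g x + (2 * C + 1) :=
    ⟨_, fun _ => rfl⟩
  have hgne : ∀ x y, x ≤ M → y ≤ M → x ≠ y → g x ≠ g y := by
    intro x y hx hy hxy he
    exact hxy (hg (by simp only [Set.mem_ofPred_eq, List.mem_range]; omega)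
      (by simp only [Set.mem_ofPred_eq, List.mem_range]; omega) he)
  have hne : ∀ x y, 0 < x → x ≤ M → 0 < y → y ≤ M → x ≠ y → P x ≠ P y := by
    intro x y hx hx' hy hy' hxy
    have e1 := hgne x y hx' hy' hxy
    have e2 := hgne 0 x (by omega) hx' (by omega)
    have e3 := hgne 0 y (by omega) hy' (by omega)
    have c1 := hC x (by omega)
    have c2 := hC y (by omega)
    have c3 := hC 0 (by omega)
    rw [hP, hP]
    split_ifs <;> omega
  have h3 : ∀ q ∈ Q, (P q.2.1 < P q.2.2.1 ↔ P q.2.2.2 < P q.2.2.1) := by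
    intro q hq
    obtain ⟨k0, ⟨k1, k2⟩, ⟨k3, k4⟩, ⟨k5, k6⟩, k7, k8, k9⟩ := hQ q hq
    have hq4 := hs q hq
    unfold NonSep H495R3.Cy.Btw at hq4
    rw [k0] at hq4
    have e1 := hgne 0 _ (by omega) k2 (by omega)
    have e2 := hgne 0 _ (by omega) k4 (by omega)
    have e3 := hgne 0 _ (by omega) k6 (by omega)
    have e4 := hgne _ _ k2 k4 k7
    have e5 := hgne _ _ k2 k6 k8
    have e6 := hgne _ _ k4 k6 k9
    have c0 := hC 0 (by omega)
    have c1 := hC q.2.1 (by omega)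
    have c2 := hC q.2.2.1 (by omega)
    have c3 := hC q.2.2.2 (by omega)
    rw [hP, hP, hP]
    split_ifs <;> omega
  -- the ranks
  obtain ⟨r, hr⟩ : ∃ r : ℕ → ℕ, ∀ x, r x =
      ((Finset.range (M + 1)).filter (fun y => 0 < y ∧ P y < P x)).card := ⟨_, fun _ => rfl⟩
  have hrM : ∀ x, r x ≤ M := by
    intro x
    rw [hr]
    refine (Finset.card_le_card (t := Finset.Ioc 0 M) ?_).trans (by rw [Nat.card_Ioc]; omega)
    intro z hz
    rw [Finset.mem_filter, Finset.mem_range] at hz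
    rw [Finset.mem_Ioc]
    omega
  have hr1 : ∀ x y, 0 < x → x ≤ M → (r x < r y ↔ P x < P y) := by
    intro x y hx hx'
    rw [hr, hr]
    constructor
    · intro hlt
      by_contra hcon
      push Not at hcon
      refine absurd hlt (not_lt.2 (Finset.card_le_card ?_))
      intro z hz
      rw [Finset.mem_filter] at hz ⊢
      exact ⟨hz.1, hz.2.1, lt_of_lt_of_le hz.2.2 hcon⟩
    · intro hlt
      refine Finset.card_lt_card ?_
      rw [Finset.ssubset_iff_of_subset]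
      · refine ⟨x, ?_, ?_⟩
        · rw [Finset.mem_filter, Finset.mem_range]
          exact ⟨by omega, hx, hlt⟩
        · rw [Finset.mem_filter]
          exact fun h => lt_irrefl _ h.2.2
      · intro z hz
        rw [Finset.mem_filter] at hz ⊢
        exact ⟨hz.1, hz.2.1, hz.2.2.trans hlt⟩
  have hrne : ∀ x y, 0 < x → x ≤ M → 0 < y → y ≤ M → x ≠ y → r x ≠ r y := by
    intro x y hx hx' hy hy' hxy
    rcases lt_or_gt_of_ne (hne x y hx hx' hy hy' hxy) with h | h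
    · have := (hr1 x y hx hx').2 h
      omega
    · have := (hr1 y x hy hy').2 h
      omega
  obtain ⟨y, hy⟩ : ∃ y : ℕ → ℕ, ∀ s, y s = if s = 0 then 0 else if s = 1 then 4 * M + 8 else
    if s % 2 = 0 then 4 * r (s / 2) + 3 else 4 * r (s / 2) + 5 := ⟨_, fun _ => rfl⟩
  have y0 : y 0 = 0 := by rw [hy, if_pos rfl]
  have y1 : y 1 = 4 * M + 8 := by rw [hy, if_neg (by omega), if_pos rfl]
  have ye : ∀ x, 0 < x → y (2 * x) = 4 * r x + 3 := by
    intro x hx
    rw [hy, if_neg (by omega), if_neg (by omega), if_pos (by omega), Nat.mul_div_cancel_left _ two_pos]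
  have yo : ∀ x, 0 < x → y (2 * x + 1) = 4 * r x + 5 := by
    intro x hx
    rw [hy, if_neg (by omega), if_neg (by omega), if_neg (by omega),
      show (2 * x + 1) / 2 = x by omega]
  refine complete (L := 4 * M + 8) (by omega) hK y ?_ ?_
  · intro s _
    have := hrM (s / 2)
    rw [hy]
    split_ifs <;> omega
  · intro p hp
    rw [mem_cL] at hp
    rcases hp with ⟨x, hx, hx', rfl⟩ | ⟨x, z, hx, hx', hz, hz', hxz, rfl⟩ | ⟨q, hq, rfl⟩
    · have := hrM x
      left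
      simp only
      rw [y0, y1, ye x hx, yo x hx]
      omega
    · have := hrne x z hx hx' hz hz' hxz
      simp only
      rw [ye x hx, yo x hx, ye z hz, yo z hz]
      omega
    · obtain ⟨k0, ⟨k1, k2⟩, ⟨k3, k4⟩, ⟨k5, k6⟩, k7, k8, k9⟩ := hQ q hq
      have g1 := h3 q hq
      rw [← hr1 _ _ k1 k2, ← hr1 _ _ k5 k6] at g1
      have g2 := hrne _ _ k1 k2 k3 k4 k7
      have g3 := hrne _ _ k5 k6 k3 k4 k9.symm
      simp only
      rw [ye _ k1, ye _ k3, ye _ k5, yo _ k3]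
      omega

end Pool.Agent.N585.PCG
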