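import Pool.Agent.R39.PCG.Four

/-!
# Quartets in metrics with the four-point condition
-/

set_option autoImplicit false

namespace Pool.Agent.N585.PCG

open Pool.Agent.R39.PCG

variable {V : Type} {d : V → V → ℝ}

/-- The quartet `ab|ce`. -/
def Q4 (d : V → V → ℝ) (a b c e : V) : Prop :=
  d a b + d c e < d a c + d b e ∧ d a b + d c e < d a e + d b c

theorem Q4.swap (h : FP d) {a b c e : V} (q : Q4 d a b c e) : Q4 d c e a b := by
  obtain ⟨q1, q2⟩ := q
  have s1 := h.symm a c
  have s2 := h.symm b e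
  have s3 := h.symm a e
  have s4 := h.symm b c
  constructor <;> linarith

theorem Q4.left (h : FP d) {a b c e : V} (q : Q4 d a b c e) : Q4 d b a c e := by
  obtain ⟨q1, q2⟩ := q
  have s1 := h.symm a b
  constructor <;> linarith

/-- The two larger sums are equal. -/
theorem Q4.eq (h : FP d) {a b c e : V} (q : Q4 d a b c e) : d a c + d b e = d a e + d b c := by
  obtain ⟨q1, q2⟩ := q
  have s0 := h.symm a b
  have s1 := h.symm a c
  have s2 := h.symm b e
  have s3 := h.symm a e
  have s4 := h.symm b c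
  have s5 := h.symm c e
  rcases h.four a c b e with h1 | h1 <;> rcases h.four a e b c with h2 | h2 <;> linarith

theorem Q4.trans (h : FP d) {a b b' c e : V} (q : Q4 d a b c e) (q' : Q4 d b b' c e) :
    Q4 d a b' c e := by
  have e1 := q.eq h
  have e2 := q'.eq h
  obtain ⟨q1, q2⟩ := q
  obtain ⟨q3, q4⟩ := q'
  have s0 := h.symm a b
  have s1 := h.symm b b'
  have s2 := h.symm b c
  have s3 := h.symm b' c
  have s4 := h.symm b e
  have s5 := h.symm b' e
  have s6 := h.symm a b'
  rcases h.four a b' b c with h1 | h1 <;> constructor <;> linarith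

/-- Chains of short steps which are apart. -/
theorem Q4.chain (h : FP d) {m : ℝ} {P Q : ℕ → V} {p q : ℕ} (hp : 0 < p) (hq : 0 < q)
    (hP : ∀ i < p, d (P i) (P (i + 1)) < m) (hQ : ∀ i < q, d (Q i) (Q (i + 1)) < m)
    (hPQ : ∀ i ≤ p, ∀ j ≤ q, m ≤ d (P i) (Q j)) : Q4 d (P 0) (P p) (Q 0) (Q q) := by
  have base : ∀ i < p, ∀ j < q, Q4 d (P i) (P (i + 1)) (Q j) (Q (j + 1)) := by
    intro i hi j hj
    have h1 := hP i hi
    have h2 := hQ j hj
    have h3 := hPQ i hi.le j hj.le
    have h4 := hPQ (i + 1) hi j hj.le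
    have h5 := hPQ i hi.le (j + 1) hj
    have h6 := hPQ (i + 1) hi (j + 1) hj
    constructor <;> linarith
  have step : ∀ j < q, ∀ k < p, Q4 d (P 0) (P (k + 1)) (Q j) (Q (j + 1)) := by
    intro j hj k
    induction k with
    | zero => exact fun hk => base 0 hk j hj
    | succ k ih => exact fun hk => (ih (by omega)).trans h (base (k + 1) hk j hj)
  have step2 : ∀ j < q, Q4 d (P 0) (P p) (Q j) (Q (j + 1)) := by
    intro j hj
    obtain ⟨k, rfl⟩ : ∃ k, p = k + 1 := ⟨p - 1, by omega⟩
    exact step j hj k (by omega)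
  have step3 : ∀ k < q, Q4 d (Q 0) (Q (k + 1)) (P 0) (P p) := by
    intro k
    induction k with
    | zero => exact fun hk => (step2 0 hk).swap h
    | succ k ih => exact fun hk => (ih (by omega)).trans h ((step2 (k + 1) hk).swap h)
  obtain ⟨k, rfl⟩ : ∃ k, q = k + 1 := ⟨q - 1, by omega⟩
  exact (step3 k (by omega)).swap h

/-- The position along the path from `r` to `s` (times two, shifted). -/
def pj (d : V → V → ℝ) (r s x : V) : ℝ := d r x - d x s

/-- Intervals of separated pairs do not meet. -/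
theorem Q4.disj (h : FP d) (r s : V) {a b c e : V} (q : Q4 d a b c e)
    (h1 : pj d r s a < pj d r s b) (h2 : pj d r s c < pj d r s e) :
    pj d r s e < pj d r s a ∨ pj d r s b < pj d r s c := by
  by_contra hcon
  push Not at hcon
  obtain ⟨h3, h4⟩ := hcon
  obtain ⟨q1, q2⟩ := q
  unfold pj at h1 h2 h3 h4
  have s1 := h.symm a s
  have s2 := h.symm b s
  have s3 := h.symm c s
  have s4 := h.symm e s
  have s5 := h.symm a b
  have s6 := h.symm c e
  have s7 := h.symm b c
  have s8 := h.symm a e
  have k1 : d r b + d a s ≤ d r s + d a b := by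
    rcases h.four r b a s with h | h <;> linarith
  have k2 : d r e + d c s ≤ d r s + d c e := by
    rcases h.four r e c s with h | h <;> linarith
  have k3 : d r s + d a e ≤ d r e + d a s := by
    rcases h.four r s a e with h | h <;> linarith
  have k4 : d r s + d b c ≤ d r b + d c s := by
    rcases h.four r s b c with h | h <;> linarith
  linarith

/-- One of the four pairs between two edges is long. -/
theorem exists_long (h : FP d) {m M : ℝ} {a b c e : V} (h1 : m ≤ d a b) (h2 : m ≤ d c e)
    (n1 : ¬ (m ≤ d a c ∧ d a c ≤ M)) (n2 : ¬ (m ≤ d b e ∧ d b e ≤ M))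
    (n3 : ¬ (m ≤ d a e ∧ d a e ≤ M)) (n4 : ¬ (m ≤ d b c ∧ d b c ≤ M)) :
    M < d a c ∨ M < d b e ∨ M < d a e ∨ M < d b c := by
  by_contra hcon
  push Not at hcon
  obtain ⟨g1, g2, g3, g4⟩ := hcon
  have l1 : d a c < m := by
    by_contra hc
    exact n1 ⟨not_lt.1 hc, g1⟩
  have l2 : d b e < m := by
    by_contra hc
    exact n2 ⟨not_lt.1 hc, g2⟩
  have l3 : d a e < m := by
    by_contra hc
    exact n3 ⟨not_lt.1 hc, g3⟩
  have l4 : d b c < m := by
    by_contra hc
    exact n4 ⟨not_lt.1 hc, g4⟩
  rcases h.four a b c e with h | h <;> linarith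

/-- If `a`, `c` are far apart and close to both `u` and `v`, then `u` and `v` are not far apart. -/
theorem short_of_long (h : FP d) {m M : ℝ} {a c u v : V} (hl : M < d a c)
    (h1 : d a u ≤ M) (h2 : d a v ≤ M) (h3 : d c u ≤ M) (h4 : d c v ≤ M)
    (n : ¬ (m ≤ d u v ∧ d u v ≤ M)) : d u v < m := by
  have s1 := h.symm a u
  have s2 := h.symm a v
  have s3 := h.symm c u
  have s4 := h.symm c v
  have s5 := h.symm u v
  by_contra hcon
  push Not at hcon
  apply n
  refine ⟨hcon, ?_⟩
  rcases h.four a c u v with h | h <;> linarith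

end Pool.Agent.N585.PCG
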