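import Pool.Agent.N585.PCG.Defs
import Pool.Agent.N585.PCG.Quart

/-!
# Caterpillars
-/

set_option autoImplicit false

namespace Pool.Agent.N585.PCG

open Pool.Agent.R39.PCG

/-- The graph of a parent function is a tree. -/
theorem isTree_of_parent {W : Type} [Finite W] (G : SimpleGraph W) (root : W) (par : W → W)
    (rk : W → ℕ) (hrk : ∀ x, x ≠ root → rk (par x) < rk x)
    (hadj : ∀ x y, G.Adj x y ↔ (x ≠ root ∧ par x = y) ∨ (y ≠ root ∧ par y = x)) : G.IsTree := by
  classical
  have hreach : ∀ (n : ℕ) (x : W), rk x ≤ n → G.Reachable x root := by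
    intro n
    induction n with
    | zero =>
      intro x hx
      by_cases h : x = root
      · rw [h]
      · have := hrk x h
        omega
    | succ n ih =>
      intro x hx
      by_cases h : x = root
      · rw [h]
      · have h1 := hrk x h
        have h2 : G.Adj x (par x) := (hadj _ _).2 (Or.inl ⟨h, rfl⟩)
        exact h2.reachable.trans (ih _ (by omega))
  have : Nonempty W := ⟨root⟩
  have hconn : G.Connected := ⟨fun i j => (hreach _ i le_rfl).trans (hreach _ j le_rfl).symm⟩
  rw [SimpleGraph.isTree_iff_connected_and_card]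
  refine ⟨hconn, ?_⟩
  have hbij : Nat.card {x : W // x ≠ root} = Nat.card G.edgeSet := by
    apply Nat.card_congr
    refine Equiv.ofBijective (fun i => ⟨s(i.1, par i.1), ?_⟩) ⟨?_, ?_⟩
    · rw [SimpleGraph.mem_edgeSet]
      exact (hadj _ _).2 (Or.inl ⟨i.2, rfl⟩)
    · rintro ⟨i, hi⟩ ⟨j, hj⟩ hij
      have h := congrArg Subtype.val hij
      simp only [Sym2.eq_iff] at h
      rcases h with ⟨h1, _⟩ | ⟨h1, h2⟩
      · exact Subtype.ext h1
      · exfalso
        have e1 := hrk i hi
        have e2 := hrk j hj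
        rw [h2] at e1
        rw [← h1] at e2
        omega
    · rintro ⟨e, he⟩
      induction e using Sym2.ind with
      | _ a b =>
        rw [SimpleGraph.mem_edgeSet] at he
        rcases (hadj _ _).1 he with ⟨h1, h2⟩ | ⟨h1, h2⟩
        · refine ⟨⟨a, h1⟩, ?_⟩
          apply Subtype.ext
          simp [h2]
        · refine ⟨⟨b, h1⟩, ?_⟩
          apply Subtype.ext
          simp only [h2]
          exact Sym2.eq_swap
  rw [← hbij]
  have h1 : Nat.card {x : W // x ≠ root} + Nat.card {x : W // x = root} = Nat.card W := by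
    have e := Equiv.sumCompl (fun x : W => x = root)
    rw [← Nat.card_congr e, Nat.card_sum, add_comm]
  have h2 : Nat.card {x : W // x = root} = 1 := by
    rw [Nat.card_eq_one_iff_unique]
    refine ⟨⟨?_⟩, ⟨⟨root, rfl⟩⟩⟩
    rintro ⟨x, hx⟩ ⟨y, hy⟩
    exact Subtype.ext (hx.trans hy.symm)
  omega

section Cat

variable {V : Type} (L : ℕ) (y : V → ℕ)

/-- The parent function of the caterpillar. -/
def cpar (hy : ∀ v, y v ≤ L) : Fin (L + 1) ⊕ V → Fin (L + 1) ⊕ V
  | Sum.inl i => Sum.inl ⟨i.1 - 1, by omega⟩
  | Sum.inr v => Sum.inl ⟨y v, by have := hy v; omega⟩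

/-- The caterpillar: a path with vertices `0, ..., L`, and a leaf `v` attached to its vertex `y v`
for every `v`. -/
def catG (hy : ∀ v, y v ≤ L) : SimpleGraph (Fin (L + 1) ⊕ V) where
  Adj a b := (a ≠ Sum.inl 0 ∧ cpar L y hy a = b) ∨ (b ≠ Sum.inl 0 ∧ cpar L y hy b = a)
  symm := ⟨fun _ _ h => h.symm⟩
  loopless := ⟨by
    intro a h
    rw [or_self] at h
    obtain ⟨h1, h2⟩ := h
    rcases a with i | v
    · simp only [cpar, Sum.inl.injEq, Fin.ext_iff] at h2
      apply h1
      rw [Sum.inl.injEq, Fin.ext_iff]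
      simp only [Fin.val_zero]
      omega
    · simp [cpar] at h2⟩

variable {L y}

theorem catG_isTree [Finite V] (hy : ∀ v, y v ≤ L) : (catG L y hy).IsTree := by
  refine isTree_of_parent _ (Sum.inl 0) (cpar L y hy)
    (fun x => Sum.elim (fun i => i.1) (fun _ => L + 1) x) ?_ (fun _ _ => Iff.rfl)
  rintro (i | v) h
  · simp only [cpar, Sum.elim_inl]
    have : i.1 ≠ 0 := by
      intro h'
      apply h
      rw [Sum.inl.injEq, Fin.ext_iff]
      simpa using h'
    omega
  · simp only [cpar, Sum.elim_inl, Sum.elim_inr]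
    have := hy v
    omega

theorem cat_spine (hy : ∀ v, y v ≤ L) (i : ℕ) (hi : i + 1 < L + 1) :
    (catG L y hy).Adj (Sum.inl ⟨i, by omega⟩) (Sum.inl ⟨i + 1, hi⟩) := by
  right
  refine ⟨?_, ?_⟩
  · rw [Ne, Sum.inl.injEq, Fin.ext_iff]
    simp
  · simp [cpar]

theorem cat_leaf (hy : ∀ v, y v ≤ L) (v : V) :
    (catG L y hy).Adj (Sum.inr v) (Sum.inl ⟨y v, by have := hy v; omega⟩) := by
  left
  exact ⟨by simp, rfl⟩

theorem cat_adj_inr (hy : ∀ v, y v ≤ L) (v : V) (a : Fin (L + 1) ⊕ V) :
    (catG L y hy).Adj (Sum.inr v) a ↔ a = Sum.inl ⟨y v, by have := hy v; omega⟩ := by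
  constructor
  · rintro (⟨_, h⟩ | ⟨h, h'⟩)
    · exact h.symm
    · rcases a with i | u <;> simp [cpar] at h'
  · rintro rfl
    exact cat_leaf hy v

/-- The weights of the caterpillar: `1` on the path, `w v` at the leaf `v`. -/
noncomputable def catW (w : V → ℝ) : Sym2 (Fin (L + 1) ⊕ V) → ℝ :=
  Sym2.lift ⟨fun a b => (Sum.elim (fun _ => 0) w a) + (Sum.elim (fun _ => 0) w b) +
    (if a.isLeft ∧ b.isLeft then 1 else 0), fun a b => by
      simp only [and_comm]
      ring⟩

theorem exists_spine (hy : ∀ v, y v ≤ L) (w : V → ℝ) (i : ℕ) : ∀ (k : ℕ) (hk : i + k < L + 1),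
    ∃ p : (catG L y hy).Walk (Sum.inl ⟨i, by omega⟩) (Sum.inl ⟨i + k, hk⟩), p.IsPath ∧
      (p.edges.map (catW w)).sum = k ∧ ∀ z ∈ p.support, ∃ j, z = Sum.inl j ∧ j.1 ≤ i + k := by
  intro k
  induction k with
  | zero =>
    intro hk
    refine ⟨SimpleGraph.Walk.nil, SimpleGraph.Walk.IsPath.nil, by simp, ?_⟩
    intro z hz
    rw [SimpleGraph.Walk.support_nil, List.mem_singleton] at hz
    exact ⟨_, hz, by simp⟩
  | succ k ih =>
    intro hk
    obtain ⟨p, hp, hs, hsup⟩ := ih (by omega)
    have hadj := cat_spine hy (i + k) (by omega)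
    refine ⟨p.concat hadj, ?_, ?_, ?_⟩
    · rw [SimpleGraph.Walk.concat_isPath_iff]
      refine ⟨hp, fun hmem => ?_⟩
      obtain ⟨j, h1, h2⟩ := hsup _ hmem
      rw [Sum.inl.injEq] at h1
      rw [← h1] at h2
      simp only at h2
      omega
    · rw [SimpleGraph.Walk.edges_concat, List.concat_eq_append, List.map_append, List.sum_append,
        hs]
      simp [catW]
    · intro z hz
      rw [SimpleGraph.Walk.support_concat, List.mem_append, List.mem_singleton] at hz
      rcases hz with hz | hz
      · obtain ⟨j, h1, h2⟩ := hsup _ hz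
        exact ⟨j, h1, by omega⟩
      · exact ⟨_, hz, by simp only; omega⟩

theorem exists_leafPath (hy : ∀ v, y v ≤ L) (w : V → ℝ) (u v : V) (huv : u ≠ v)
    (h : y u ≤ y v) : ∃ p : (catG L y hy).Walk (Sum.inr u) (Sum.inr v), p.IsPath ∧
      (p.edges.map (catW w)).sum = w u + w v + ((y v : ℝ) - y u) := by
  have hv := hy v
  obtain ⟨p, hp, hs, hsup⟩ := exists_spine hy w (y u) (y v - y u) (by omega)
  have e : (⟨y u + (y v - y u), by omega⟩ : Fin (L + 1)) = ⟨y v, by omega⟩ :=
    Fin.ext (by simp only; omega)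
  have hadj : (catG L y hy).Adj (Sum.inl ⟨y u + (y v - y u), by omega⟩) (Sum.inr v) := by
    rw [e]
    exact (cat_leaf hy v).symm
  refine ⟨SimpleGraph.Walk.cons (cat_leaf hy u) (p.concat hadj), ?_, ?_⟩
  · rw [SimpleGraph.Walk.cons_isPath_iff, SimpleGraph.Walk.concat_isPath_iff]
    refine ⟨⟨hp, fun hmem => ?_⟩, fun hmem => ?_⟩
    · obtain ⟨j, h1, _⟩ := hsup _ hmem
      simp at h1
    · rw [SimpleGraph.Walk.support_concat, List.mem_append, List.mem_singleton] at hmem
      rcases hmem with hmem | hmem
      · obtain ⟨j, h1, _⟩ := hsup _ hmem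
        simp at h1
      · exact huv (Sum.inr_injective hmem)
  · rw [SimpleGraph.Walk.edges_cons, SimpleGraph.Walk.edges_concat, List.concat_eq_append,
      List.map_cons, List.map_append, List.sum_cons, List.sum_append, hs, Nat.cast_sub h]
    simp [catW]
    ring

/-- The caterpillar as a tree whose leaves are the elements of `V`. -/
noncomputable def catTree [Finite V] (hy : ∀ v, y v ≤ L) (w : V → ℝ) (hw : ∀ v, 0 < w v)
    (hL : 0 < L) (a b : V) (ha : y a = 0) (hb : y b = L) : LeafTree V where
  W := Fin (L + 1) ⊕ V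
  finite := inferInstance
  T := catG L y hy
  isTree := catG_isTree hy
  w := catW w
  pos := by
    intro e he
    induction e using Sym2.ind with
    | _ c d =>
      rw [SimpleGraph.mem_edgeSet] at he
      rcases c with i | u <;> rcases d with j | v
      · simp [catW]
      · simpa [catW] using hw v
      · simpa [catW] using hw u
      · rw [cat_adj_inr] at he
        simp at he
  leaf := Sum.inr
  leaf_injective := Sum.inr_injective
  range_leaf := by
    ext x
    rw [Set.mem_range, Set.mem_ofPred_eq]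
    constructor
    · rintro ⟨v, rfl⟩
      rw [Set.ncard_eq_one]
      refine ⟨Sum.inl ⟨y v, by have := hy v; omega⟩, ?_⟩
      ext z
      rw [SimpleGraph.mem_neighborSet, cat_adj_inr, Set.mem_singleton_iff]
    · intro h
      rcases x with i | v
      · exfalso
        rw [Set.ncard_eq_one] at h
        obtain ⟨z, hz⟩ := h
        have key : ∀ z', (catG L y hy).Adj (Sum.inl i) z' → z' = z := by
          intro z' hz'
          have : z' ∈ (catG L y hy).neighborSet (Sum.inl i) := hz'
          rw [hz] at this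
          exact this
        rcases Nat.eq_zero_or_pos i.1 with h0 | h0
        · have e1 := key (Sum.inl ⟨i.1 + 1, by omega⟩) (cat_spine hy i.1 (by omega))
          have e2 := key (Sum.inr a) (by
            have := (cat_leaf hy a).symm
            have hi : i = ⟨y a, by have := hy a; omega⟩ := Fin.ext (by simp only; omega)
            rw [hi]
            exact this)
          rw [← e1] at e2
          simp at e2
        · have e1 := key (Sum.inl ⟨i.1 - 1, by omega⟩) (by
            have := (cat_spine hy (i.1 - 1) (by omega)).symm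
            have hi : (⟨i.1 - 1 + 1, by omega⟩ : Fin (L + 1)) = i :=
              Fin.ext (by simp only; omega)
            rw [hi] at this
            exact this)
          rcases Nat.lt_or_ge i.1 L with h1 | h1
          · have e2 := key (Sum.inl ⟨i.1 + 1, by omega⟩) (cat_spine hy i.1 (by omega))
            rw [← e1, Sum.inl.injEq, Fin.ext_iff] at e2
            simp only at e2
            omega
          · have e2 := key (Sum.inr b) (by
              have := (cat_leaf hy b).symm
              have hi : i = ⟨y b, by have := hy b; omega⟩ := Fin.ext (by simp only; omega)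
              rw [hi]
              exact this)
            rw [← e1] at e2
            simp at e2
      · exact ⟨v, rfl⟩

theorem LeafTree.d_eq {V : Type} (τ : LeafTree V) (u v : V)
    (p : τ.T.Walk (τ.leaf u) (τ.leaf v)) (hp : p.IsPath) : τ.d u v = (p.edges.map τ.w).sum := by
  have h := τ.isTree.existsUnique_path (τ.leaf u) (τ.leaf v)
  have h1 : h.choose = p := h.unique h.choose_spec.1 hp
  unfold LeafTree.d
  rw [h1]

/-- The underlying tree with nonnegative weights. -/
def LeafTree.toWTree {V : Type} (τ : LeafTree V) : WTree V where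
  W := τ.W
  finite := τ.finite
  T := τ.T
  isTree := τ.isTree
  w := τ.w
  nonneg := fun e he => (τ.pos e he).le
  leaf := τ.leaf
  leaf_injective := τ.leaf_injective
  range_leaf := τ.range_leaf

theorem LeafTree.fp {V : Type} (τ : LeafTree V) : FP τ.d := τ.toWTree.fp

theorem catTree_d [Finite V] (hy : ∀ v, y v ≤ L) (w : V → ℝ) (hw : ∀ v, 0 < w v)
    (hL : 0 < L) (a b : V) (ha : y a = 0) (hb : y b = L) (u v : V) (huv : u ≠ v) :
    (catTree hy w hw hL a b ha hb).d u v = w u + w v + |(y v : ℝ) - y u| := by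
  rcases le_total (y u) (y v) with h | h
  · obtain ⟨p, hp, hs⟩ := exists_leafPath hy w u v huv h
    have h1 := (catTree hy w hw hL a b ha hb).d_eq u v p hp
    have h' : (y u : ℝ) ≤ y v := by exact_mod_cast h
    rw [abs_of_nonneg (by linarith), ← hs]
    exact h1
  · obtain ⟨p, hp, hs⟩ := exists_leafPath hy w v u huv.symm h
    have h1 := (catTree hy w hw hL a b ha hb).d_eq v u p hp
    rw [(catTree hy w hw hL a b ha hb).fp.symm u v]
    have h' : (y v : ℝ) ≤ y u := by exact_mod_cast h
    rw [abs_of_nonpos (by linarith)]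
    refine h1.trans (hs.trans ?_)
    ring

end Cat

end Pool.Agent.N585.PCG
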