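import Mathlib
import Pool.Agent.H622R2.MatGraph

/-!
# Pairwise compatibility graphs and generalized PCG recognition: definitions
-/

set_option autoImplicit false

namespace Pool.Agent.N585.PCG

open Pool.Agent.H622R2

/-- A finite tree with positive real edge weights whose leaves (the vertices of degree one) are
identified with the elements of `V` by the bijection `leaf`. -/
structure LeafTree (V : Type) where
  /-- the vertices of the tree -/
  W : Type
  finite : Finite W
  /-- the tree -/
  T : SimpleGraph W
  isTree : T.IsTree
  /-- the edge weights -/
  w : Sym2 W → ℝ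
  pos : ∀ e ∈ T.edgeSet, 0 < w e
  /-- the leaf belonging to an element of `V` -/
  leaf : V → W
  leaf_injective : Function.Injective leaf
  range_leaf : Set.range leaf = {x | (T.neighborSet x).ncard = 1}

/-- `d u v`: the total weight of the unique path between the leaves `u` and `v`. -/
noncomputable def LeafTree.d {V : Type} (τ : LeafTree V) (u v : V) : ℝ :=
  (((τ.isTree.existsUnique_path (τ.leaf u) (τ.leaf v)).choose.edges).map τ.w).sum

/-- The pairwise compatibility graph of the tree and the two numbers: its vertices are the leaves
of the tree, and two distinct leaves are adjacent when their distance is at least `dmin` and at most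
`dmax`. -/
def LeafTree.pcg {V : Type} (τ : LeafTree V) (dmin dmax : ℝ) : SimpleGraph V :=
  SimpleGraph.fromRel fun u v => dmin ≤ τ.d u v ∧ τ.d u v ≤ dmax

/-- Generalized PCG recognition for the graph `G` and the set `S` of pairs: is there a pairwise
compatibility graph on the same vertices which contains all edges of `G` and no pair in `S`? -/
def HasPCG {V : Type} (G S : SimpleGraph V) : Prop :=
  ∃ (τ : LeafTree V) (dmin dmax : ℝ), 0 ≤ dmin ∧ dmin ≤ dmax ∧
    (∀ u v, G.Adj u v → (τ.pcg dmin dmax).Adj u v) ∧
    ∀ u v, S.Adj u v → ¬ (τ.pcg dmin dmax).Adj u v

/-- The set `S` of an instance: the pairs marked in the second matrix which are not edges. -/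
def markedPairs (I : List (List Bool) × List (List Bool)) : SimpleGraph (Fin I.1.length) where
  Adj i j := (i ≠ j ∧ ¬ (matGraph I.1).Adj i j) ∧ (entry I.2 i j = true ∨ entry I.2 j i = true)
  symm := ⟨fun _ _ h => ⟨⟨h.1.1.symm, fun h' => h.1.2 h'.symm⟩, h.2.symm⟩⟩
  loopless := ⟨fun _ h => h.1.1 rfl⟩

/-- The decision problem: the input is the adjacency matrix of the graph `G` and a matrix in which
the pairs of the set `S` of non-edges are marked. -/
def GenPCGRecognition (I : List (List Bool) × List (List Bool)) : Prop :=
  HasPCG (matGraph I.1) (markedPairs I)

end Pool.Agent.N585.PCG
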