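import Pool.Agent.N585.PCG.Base
import Pool.Agent.H495R3.CyPoly

/-!
# Generalized PCG recognition is NP-hard
-/

set_option autoImplicit false

namespace Pool.Agent.N585.PCG

open Pool.Agent.NPC Pool.Agent.H622R2 Pool.Agent.H495R3.Cy

variable {α : Type} [TEnc α]

theorem onP_poly {p : α → ℕ × ℕ} {u : α → Lb} (hp : Poly p) (hu : Poly u) :
    Poly (fun a => onP (p a) (u a)) := by
  unfold onP
  fun_prop

attribute [fun_prop] onP_poly

theorem eB_poly {A : α → List Cn} {u v : α → Lb} (hA : Poly A) (hu : Poly u) (hv : Poly v) :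
    Poly (fun a => eB (A a) (u a) (v a)) := by
  unfold eB
  fun_prop

attribute [fun_prop] eB_poly

theorem sB_poly {K : α → ℕ} {u v : α → Lb} (hK : Poly K) (hu : Poly u) (hv : Poly v) :
    Poly (fun a => sB (K a) (u a) (v a)) := by
  unfold sB
  fun_prop

attribute [fun_prop] sB_poly

theorem vsL_poly {n K : α → ℕ} (hn : UPoly n) (hK : UPoly K) :
    Poly (fun a => vsL (n a) (K a)) := by
  unfold vsL
  have h1 := hn.range
  have h2 := hK.range
  generalize hR : (fun a => List.range (n a)) = R at h1
  generalize hR' : (fun a => List.range (K a)) = R' at h2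
  have e1 : ∀ a, List.range (n a) = R a := fun a => congrFun hR a
  have e2 : ∀ a, List.range (K a) = R' a := fun a => congrFun hR' a
  simp only [e1, e2]
  fun_prop

theorem cL_poly {M : α → ℕ} {Q : α → List Quad} (hM : UPoly M) (hQ : Poly Q) :
    Poly (fun a => cL (M a) (Q a)) := by
  unfold cL
  have h1 := hM.range
  generalize hR : (fun a => List.range (M a)) = R at h1
  have e1 : ∀ a, List.range (M a) = R a := fun a => congrFun hR a
  simp only [e1]
  fun_prop

/-- The reduction. -/
def pcRed (φ : List Cl) : List (List Bool) × List (List Bool) :=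
  redI (2 * (2 + 8 * φ.length + 1)) (4 * (2 + 8 * φ.length) + 8) (cL (2 + 8 * φ.length) (quads φ))

theorem redI_poly {n K : α → ℕ} {A : α → List Cn} (hn : UPoly n) (hK : UPoly K) (hK' : Poly K)
    (hA : Poly A) : Poly (fun a => redI (n a) (K a) (A a)) := by
  unfold redI
  refine Poly.pair ?_ ?_
  · exact mat_poly (l := fun a => vsL (n a) (K a)) (adj := fun a => eB (A a))
      (vsL_poly hn hK) (by fun_prop)
  · exact mat_poly (l := fun a => vsL (n a) (K a)) (adj := fun a => sB (K a))
      (vsL_poly hn hK) (by fun_prop)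

theorem pcRed_poly : Poly pcRed := by
  unfold pcRed
  have hm : UPoly (fun φ : List Cl => 2 + 8 * φ.length) :=
    (UPoly.const 2).add ((UPoly.const 8).mul (UPoly.length Poly.id))
  refine redI_poly ?_ ?_ (by fun_prop) (cL_poly hm (by fun_prop))
  · exact (UPoly.const 2).mul (hm.add (UPoly.const 1))
  · exact ((UPoly.const 4).mul hm).add (UPoly.const 8)

theorem qz_quads {φ : List Cl} (hd : Distinct3 φ) (hb : Bounded3 φ) :
    QZ (2 + 8 * φ.length) (quads φ) := by
  intro q hq
  obtain ⟨a, b, c, ht, hq⟩ := (mem_quads q).1 hq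
  obtain ⟨h1, h2, h3, h4, h5, h6, h7, h8, h9⟩ := trip_ok hd hb ht
  simp only [betw, List.mem_cons, List.not_mem_nil, or_false] at hq
  rcases hq with rfl | rfl
  · simp only
    exact ⟨trivial, ⟨by omega, by omega⟩, ⟨by omega, by omega⟩, ⟨by omega, by omega⟩, by omega,
      by omega, by omega⟩
  · simp only
    exact ⟨trivial, ⟨by omega, by omega⟩, ⟨by omega, by omega⟩, ⟨by omega, by omega⟩, by omega,
      by omega, by omega⟩

theorem pcRed_correct {φ : List Cl} (hd : Distinct3 φ) (hb : Bounded3 φ) :
    SAT3 φ ↔ GenPCGRecognition (pcRed φ) := by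
  have hq := qz_quads hd hb
  have e : els φ = List.range (2 + 8 * φ.length + 1) := by
    unfold els
    congr 1
    omega
  constructor
  · intro h
    refine gen_of_solv hq ?_ le_rfl
    rw [← e]
    exact sat_to_solv hd hb h
  · intro h
    obtain ⟨d, hfp, h4⟩ := sound (cL_ok hq) (by omega) h
    refine solv_to_sat hd hb ?_
    rw [e]
    exact solv_of_q4 hq hfp h4

/-- The problem is hard. -/
theorem hardI_gen : HardI GenPCGRecognition :=
  (hardPr_SAT3b.trans (Pr' := fun _ => True) pcRed_poly (fun _ _ => trivial)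
    (fun _ h => pcRed_correct h.1 h.2.1)).toHardI

end Pool.Agent.N585.PCG
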