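import Pool.Agent.N585.PCG.Cat

/-!
# From apartness constraints to generalized PCG recognition

A constraint `((s, e), (s', e'))` says that the paths between the points `s`, `e` and between the
points `s'`, `e'` are apart.
-/

set_option autoImplicit false

namespace Pool.Agent.N585.PCG

open Pool.Agent.R39.PCG Pool.Agent.H622R2

/-- Labels: `(0, s, 0, 0)` are points, `(1, s, e, i)` the vertices of the chain from `s` to `e`,
`(2, j, 0, 0)` the anchors. -/
abbrev Lb := ℕ × ℕ × ℕ × ℕ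

/-- A constraint. -/
abbrev Cn := (ℕ × ℕ) × (ℕ × ℕ)

/-- The label is on the path from `p.1` to `p.2`. -/
def onP (p : ℕ × ℕ) (u : Lb) : Bool :=
  (decide (u.1 = 0) && (decide (u.2.1 = p.1) || decide (u.2.1 = p.2))) ||
    (decide (u.1 = 1) && (decide (u.2.1 = p.1) && decide (u.2.2.1 = p.2)))

/-- Edges. -/
def eB (A : List Cn) (u v : Lb) : Bool :=
  (decide (u.1 = 2) && decide (v.1 < 2)) ||
  ((decide (u.1 = 2) && decide (v.1 = 2)) &&
    (decide (v.2.1 = u.2.1 + 1) && decide (v.2.1 ≠ 2))) ||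
  A.any (fun q => onP q.1 u && onP q.2 v)

/-- Marked pairs. -/
def sB (K : ℕ) (u v : Lb) : Bool :=
  ((decide (u.1 = 0) && decide (v.1 = 1)) &&
    (decide (v.2.1 = u.2.1) && decide (v.2.2.2 = 1))) ||
  ((decide (u.1 = 1) && decide (v.1 = 1)) && ((decide (v.2.1 = u.2.1) &&
    decide (v.2.2.1 = u.2.2.1)) && decide (v.2.2.2 = u.2.2.2 + 1))) ||
  ((decide (u.1 = 1) && decide (v.1 = 0)) &&
    (decide (v.2.1 = u.2.2.1) && decide (u.2.2.2 = K))) ||
  ((decide (u.1 = 2) && decide (v.1 = 2)) && (decide (u.2.1 < 2) && decide (2 ≤ v.2.1)))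

/-- The vertices. -/
def vsL (n K : ℕ) : List Lb :=
  (List.range n).map (fun s => (0, s, 0, 0)) ++
    ((List.range n).flatMap (fun s => (List.range n).flatMap (fun e =>
      (List.range K).map (fun i => (1, s, e, i + 1)))) ++
    (List.range 4).map (fun j => (2, j, 0, 0)))

/-- The instance. -/
def redI (n K : ℕ) (A : List Cn) : List (List Bool) × List (List Bool) :=
  (mat (vsL n K) (eB A), mat (vsL n K) (sB K))

/-- Well-formed constraints. -/
def AOk (n : ℕ) (A : List Cn) : Prop :=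
  ∀ q ∈ A, q.1.1 < n ∧ q.1.2 < n ∧ q.2.1 < n ∧ q.2.2 < n ∧ q.1.1 ≠ q.2.1 ∧ q.1.1 ≠ q.2.2 ∧
    q.1.2 ≠ q.2.1 ∧ q.1.2 ≠ q.2.2

theorem mem_vsL {n K : ℕ} (u : Lb) : u ∈ vsL n K ↔
    (u.1 = 0 ∧ u.2.1 < n ∧ u.2.2.1 = 0 ∧ u.2.2.2 = 0) ∨
    (u.1 = 1 ∧ u.2.1 < n ∧ u.2.2.1 < n ∧ 1 ≤ u.2.2.2 ∧ u.2.2.2 ≤ K) ∨
    (u.1 = 2 ∧ u.2.1 < 4 ∧ u.2.2.1 = 0 ∧ u.2.2.2 = 0) := by
  obtain ⟨a, b, c, e⟩ := u
  simp only [vsL, List.mem_append, List.mem_map, List.mem_range, Prod.mk.injEq,
    List.mem_flatMap]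
  constructor
  · rintro (⟨s, h, rfl, rfl, rfl, rfl⟩ | ⟨s, hs, t, ht, i, hi, rfl, rfl, rfl, rfl⟩ |
      ⟨j, h, rfl, rfl, rfl, rfl⟩)
    · exact Or.inl ⟨rfl, h, rfl, rfl⟩
    · exact Or.inr (Or.inl ⟨rfl, hs, ht, by omega, by omega⟩)
    · exact Or.inr (Or.inr ⟨rfl, h, rfl, rfl⟩)
  · rintro (⟨h1, h2, h3, h4⟩ | ⟨h1, h2, h3, h4, h5⟩ | ⟨h1, h2, h3, h4⟩)
    · exact Or.inl ⟨b, h2, h1.symm, rfl, h3.symm, h4.symm⟩
    · exact Or.inr (Or.inl ⟨b, h2, c, h3, e - 1, by omega, h1.symm, rfl, rfl, by omega⟩)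
    · exact Or.inr (Or.inr ⟨b, h2, h1.symm, rfl, h3.symm, h4.symm⟩)

theorem onP_iff (p : ℕ × ℕ) (u : Lb) : onP p u = true ↔
    (u.1 = 0 ∧ (u.2.1 = p.1 ∨ u.2.1 = p.2)) ∨ (u.1 = 1 ∧ u.2.1 = p.1 ∧ u.2.2.1 = p.2) := by
  simp [onP]

theorem eB_iff (A : List Cn) (u v : Lb) : eB A u v = true ↔
    (u.1 = 2 ∧ v.1 < 2) ∨ (u.1 = 2 ∧ v.1 = 2 ∧ v.2.1 = u.2.1 + 1 ∧ v.2.1 ≠ 2) ∨
      ∃ q ∈ A, onP q.1 u = true ∧ onP q.2 v = true := by
  simp only [eB, Bool.or_eq_true, Bool.and_eq_true, decide_eq_true_eq, List.any_eq_true]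
  tauto

theorem sB_iff (K : ℕ) (u v : Lb) : sB K u v = true ↔
    (u.1 = 0 ∧ v.1 = 1 ∧ v.2.1 = u.2.1 ∧ v.2.2.2 = 1) ∨
    (u.1 = 1 ∧ v.1 = 1 ∧ v.2.1 = u.2.1 ∧ v.2.2.1 = u.2.2.1 ∧ v.2.2.2 = u.2.2.2 + 1) ∨
    (u.1 = 1 ∧ v.1 = 0 ∧ v.2.1 = u.2.2.1 ∧ u.2.2.2 = K) ∨
    (u.1 = 2 ∧ v.1 = 2 ∧ u.2.1 < 2 ∧ 2 ≤ v.2.1) := by
  simp only [sB, Bool.or_eq_true, Bool.and_eq_true, decide_eq_true_eq]
  tauto

section Graph

variable {n K : ℕ} {A : List Cn}

theorem len_redI : (redI n K A).1.length = (vsL n K).length := by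
  unfold redI
  exact mat_length _ _

/-- The label of a vertex. -/
def lb (n K : ℕ) (A : List Cn) (i : Fin (redI n K A).1.length) : Lb :=
  (vsL n K)[i.1]'(lt_of_lt_of_eq i.2 len_redI)

theorem lb_mem (i : Fin (redI n K A).1.length) : lb n K A i ∈ vsL n K := List.getElem_mem _

theorem exists_lb {u : Lb} (hu : u ∈ vsL n K) : ∃ i, lb n K A i = u := by
  obtain ⟨i, hi, rfl⟩ := List.getElem_of_mem hu
  exact ⟨⟨i, lt_of_lt_of_eq hi len_redI.symm⟩, rfl⟩

theorem vsL_nodup : (vsL n K).Nodup := by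
  unfold vsL
  rw [List.nodup_append, List.nodup_append]
  refine ⟨?_, ⟨?_, ?_, ?_⟩, ?_⟩
  · exact List.nodup_range.map (fun a b h => by simpa using h)
  · rw [List.nodup_flatMap]
    refine ⟨fun s _ => ?_, ?_⟩
    · rw [List.nodup_flatMap]
      refine ⟨fun e _ => List.nodup_range.map (fun a b h => by simpa using h), ?_⟩
      refine List.Pairwise.imp_of_mem ?_ List.nodup_range
      intro a b _ _ hab x hx hx'
      simp only [List.mem_map] at hx hx'
      obtain ⟨i, _, rfl⟩ := hx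
      obtain ⟨j, _, h⟩ := hx'
      simp only [Prod.mk.injEq] at h
      exact hab h.2.2.1.symm
    · refine List.Pairwise.imp_of_mem ?_ List.nodup_range
      intro a b _ _ hab x hx hx'
      simp only [List.mem_map, List.mem_flatMap] at hx hx'
      obtain ⟨e, _, i, _, rfl⟩ := hx
      obtain ⟨e', _, j, _, h⟩ := hx'
      simp only [Prod.mk.injEq] at h
      exact hab h.2.1.symm
  · exact List.nodup_range.map (fun a b h => by simpa using h)
  · intro x hx y hy hxy
    subst hxy
    simp only [List.mem_map, List.mem_flatMap] at hx hy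
    obtain ⟨_, _, _, _, _, _, rfl⟩ := hx
    obtain ⟨_, _, h⟩ := hy
    simp at h
  · intro x hx y hy hxy
    subst hxy
    simp only [List.mem_append, List.mem_map, List.mem_flatMap] at hx hy
    obtain ⟨_, _, rfl⟩ := hx
    rcases hy with ⟨_, _, _, _, _, _, h⟩ | ⟨_, _, h⟩ <;> simp at h

theorem lb_inj {i j : Fin (redI n K A).1.length} (h : lb n K A i = lb n K A j) : i = j := by
  have := (vsL_nodup (n := n) (K := K)).getElem_inj_iff.1 h
  exact Fin.ext this

theorem adj_redI (i j : Fin (redI n K A).1.length) : (matGraph (redI n K A).1).Adj i j ↔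
    i ≠ j ∧ (eB A (lb n K A i) (lb n K A j) = true ∨ eB A (lb n K A j) (lb n K A i) = true) := by
  change (i ≠ j ∧ (entry (mat (vsL n K) (eB A)) i j = true ∨
    entry (mat (vsL n K) (eB A)) j i = true)) ↔ _
  rw [entry_mat _ _ _ _ (lt_of_lt_of_eq i.2 len_redI) (lt_of_lt_of_eq j.2 len_redI),
    entry_mat _ _ _ _ (lt_of_lt_of_eq j.2 len_redI) (lt_of_lt_of_eq i.2 len_redI)]
  rfl

theorem marked_redI (i j : Fin (redI n K A).1.length) : (markedPairs (redI n K A)).Adj i j ↔
    (i ≠ j ∧ ¬ (matGraph (redI n K A).1).Adj i j) ∧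
      (sB K (lb n K A i) (lb n K A j) = true ∨ sB K (lb n K A j) (lb n K A i) = true) := by
  change ((i ≠ j ∧ ¬ (matGraph (redI n K A).1).Adj i j) ∧
    (entry (mat (vsL n K) (sB K)) i j = true ∨ entry (mat (vsL n K) (sB K)) j i = true)) ↔ _
  rw [entry_mat _ _ _ _ (lt_of_lt_of_eq i.2 len_redI) (lt_of_lt_of_eq j.2 len_redI),
    entry_mat _ _ _ _ (lt_of_lt_of_eq j.2 len_redI) (lt_of_lt_of_eq i.2 len_redI)]
  rfl

/-- Marked pairs are not edges. -/
theorem sB_not_eB (hA : AOk n A) {u v : Lb} (h : sB K u v = true) :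
    eB A u v = false ∧ eB A v u = false := by
  rw [sB_iff] at h
  rw [← Bool.not_eq_true, ← Bool.not_eq_true, eB_iff, eB_iff]
  constructor
  · rintro (⟨h1, h2⟩ | ⟨h1, h2, h3, h4⟩ | ⟨q, hq, h1, h2⟩)
    · omega
    · omega
    · have := hA q hq
      rw [onP_iff] at h1 h2
      omega
  · rintro (⟨h1, h2⟩ | ⟨h1, h2, h3, h4⟩ | ⟨q, hq, h1, h2⟩)
    · omega
    · omega
    · have := hA q hq
      rw [onP_iff] at h1 h2
      omega

/-- The path functions. -/
def pth (K s e i : ℕ) : Lb :=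
  if i = 0 then (0, s, 0, 0) else if i ≤ K then (1, s, e, i) else (0, e, 0, 0)

theorem pth_mem {s e i : ℕ} (hs : s < n) (he : e < n) : pth K s e i ∈ vsL n K := by
  rw [mem_vsL]
  unfold pth
  split_ifs with h1 h2
  · exact Or.inl ⟨rfl, hs, rfl, rfl⟩
  · exact Or.inr (Or.inl ⟨rfl, hs, he, by simp only; omega, h2⟩)
  · exact Or.inl ⟨rfl, he, rfl, rfl⟩

theorem pth_onP (s e i : ℕ) : onP (s, e) (pth K s e i) = true := by
  rw [onP_iff]
  unfold pth
  split_ifs <;> simp

theorem pth_step (hK : 0 < K) (s e i : ℕ) (hi : i < K + 1) :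
    sB K (pth K s e i) (pth K s e (i + 1)) = true := by
  rw [sB_iff]
  unfold pth
  by_cases h0 : i = 0
  · subst h0
    simp only [↓reduceIte, zero_add, one_ne_zero]
    rw [if_pos (by omega)]
    simp
  · rw [if_neg h0, if_pos (by omega), if_neg (by omega)]
    by_cases h1 : i + 1 ≤ K
    · rw [if_pos h1]
      simp
    · rw [if_neg h1]
      have : i = K := by omega
      simp [this]

/-- Soundness: from a realisation we get a metric on the points in which the paths are apart. -/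
theorem sound (hA : AOk n A) (hK : 0 < K) (h : GenPCGRecognition (redI n K A)) :
    ∃ d : ℕ → ℕ → ℝ, FP d ∧ ∀ q ∈ A, Q4 d q.1.1 q.1.2 q.2.1 q.2.2 := by
  classical
  obtain ⟨τ, m, M, h0, hmM, hE, hS⟩ := h
  have hfp := τ.fp
  -- the distances of labels
  have hne : Nonempty (Fin (redI n K A).1.length) := by
    obtain ⟨i, -⟩ := exists_lb (n := n) (K := K) (A := A) (u := (2, 0, 0, 0)) (by
      rw [mem_vsL]; simp)
    exact ⟨i⟩
  let ix : Lb → Fin (redI n K A).1.length := fun u =>
    if h : ∃ i, lb n K A i = u then h.choose else Classical.arbitrary _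
  have hix : ∀ u ∈ vsL n K, lb n K A (ix u) = u := by
    intro u hu
    have h : ∃ i, lb n K A i = u := exists_lb hu
    simp only [ix]
    rw [dif_pos h]
    exact h.choose_spec
  have hD : FP (fun u v => τ.d (ix u) (ix v)) := hfp.comap ix
  set D : Lb → Lb → ℝ := fun u v => τ.d (ix u) (ix v) with hDdef
  have hEdge : ∀ u ∈ vsL n K, ∀ v ∈ vsL n K, u ≠ v → eB A u v = true →
      m ≤ D u v ∧ D u v ≤ M := by
    intro u hu v hv huv he
    have hne : ix u ≠ ix v := by
      intro h
      apply huv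
      rw [← hix u hu, ← hix v hv, h]
    have h1 : (matGraph (redI n K A).1).Adj (ix u) (ix v) := by
      rw [adj_redI, hix u hu, hix v hv]
      exact ⟨hne, Or.inl he⟩
    have h2 := hE _ _ h1
    rw [LeafTree.pcg, SimpleGraph.fromRel_adj] at h2
    rcases h2.2 with h3 | h3
    · exact h3
    · rw [hfp.symm] at h3
      exact h3
  have hMark : ∀ u ∈ vsL n K, ∀ v ∈ vsL n K, u ≠ v → sB K u v = true →
      ¬ (m ≤ D u v ∧ D u v ≤ M) := by
    intro u hu v hv huv hs hcon
    have hne : ix u ≠ ix v := by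
      intro h
      apply huv
      rw [← hix u hu, ← hix v hv, h]
    obtain ⟨n1, n2⟩ := sB_not_eB hA hs
    have h1 : (markedPairs (redI n K A)).Adj (ix u) (ix v) := by
      rw [marked_redI, adj_redI, hix u hu, hix v hv]
      refine ⟨⟨hne, ?_⟩, Or.inl hs⟩
      rintro ⟨-, h | h⟩
      · rw [n1] at h
        exact absurd h (by simp)
      · rw [n2] at h
        exact absurd h (by simp)
    apply hS _ _ h1
    rw [LeafTree.pcg, SimpleGraph.fromRel_adj]
    exact ⟨hne, Or.inl hcon⟩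
  -- the anchors
  have ha : ∀ j < 4, ((2, j, 0, 0) : Lb) ∈ vsL n K := by
    intro j hj
    rw [mem_vsL]
    right; right
    exact ⟨rfl, hj, rfl, rfl⟩
  have hlong := exists_long (a := ((2, 0, 0, 0) : Lb)) (b := (2, 1, 0, 0)) (c := (2, 2, 0, 0))
    (e := (2, 3, 0, 0)) hD
    (hEdge _ (ha 0 (by omega)) _ (ha 1 (by omega)) (by simp) (by rw [eB_iff]; simp)).1
    (hEdge _ (ha 2 (by omega)) _ (ha 3 (by omega)) (by simp) (by rw [eB_iff]; simp)).1
    (hMark _ (ha 0 (by omega)) _ (ha 2 (by omega)) (by simp) (by rw [sB_iff]; simp))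
    (hMark _ (ha 1 (by omega)) _ (ha 3 (by omega)) (by simp) (by rw [sB_iff]; simp))
    (hMark _ (ha 0 (by omega)) _ (ha 3 (by omega)) (by simp) (by rw [sB_iff]; simp))
    (hMark _ (ha 1 (by omega)) _ (ha 2 (by omega)) (by simp) (by rw [sB_iff]; simp))
  obtain ⟨j, hj, k, hk, hlong⟩ : ∃ j, j < 4 ∧ ∃ k, k < 4 ∧ M < D (2, j, 0, 0) (2, k, 0, 0) := by
    rcases hlong with h | h | h | h
    · exact ⟨0, by omega, 2, by omega, h⟩
    · exact ⟨1, by omega, 3, by omega, h⟩
    · exact ⟨0, by omega, 3, by omega, h⟩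
    · exact ⟨1, by omega, 2, by omega, h⟩
  have hanc : ∀ j < 4, ∀ u ∈ vsL n K, u.1 < 2 → D (2, j, 0, 0) u ≤ M := by
    intro j hj u hu hu2
    exact (hEdge _ (ha j hj) _ hu (by rintro rfl; simp at hu2) (by
      rw [eB_iff]
      left
      exact ⟨rfl, hu2⟩)).2
  have hshort : ∀ u ∈ vsL n K, ∀ v ∈ vsL n K, u.1 < 2 → v.1 < 2 → u ≠ v → sB K u v = true →
      D u v < m := by
    intro u hu v hv hu2 hv2 huv hs
    exact short_of_long hD hlong (hanc j hj u hu hu2) (hanc j hj v hv hv2)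
      (hanc k hk u hu hu2) (hanc k hk v hv hv2) (hMark u hu v hv huv hs)
  have hp2 : ∀ s e i, (pth K s e i).1 < 2 := by
    intro s e i
    unfold pth
    split_ifs <;> simp
  have hpne : ∀ s e i, i < K + 1 → pth K s e i ≠ pth K s e (i + 1) := by
    intro s e i hi h
    have h1 := pth_step hK s e i hi
    rw [← h, sB_iff] at h1
    omega
  refine ⟨fun s t => D (0, s, 0, 0) (0, t, 0, 0), hD.comap (fun s => ((0, s, 0, 0) : Lb)), ?_⟩
  rintro ⟨⟨s, e⟩, ⟨s', e'⟩⟩ hq
  obtain ⟨a1, a2, a3, a4, a5, a6, a7, a8⟩ := hA _ hq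
  simp only at a1 a2 a3 a4 a5 a6 a7 a8
  have key := Q4.chain hD (m := m) (P := pth K s e) (Q := pth K s' e') (p := K + 1) (q := K + 1)
    (by omega) (by omega)
    (fun i hi => hshort _ (pth_mem a1 a2) _ (pth_mem a1 a2) (hp2 _ _ _) (hp2 _ _ _)
      (hpne _ _ _ hi) (pth_step hK _ _ _ hi))
    (fun i hi => hshort _ (pth_mem a3 a4) _ (pth_mem a3 a4) (hp2 _ _ _) (hp2 _ _ _)
      (hpne _ _ _ hi) (pth_step hK _ _ _ hi))
    (fun i hi j hj => (hEdge _ (pth_mem a1 a2) _ (pth_mem a3 a4) (by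
      intro h
      have h1 := pth_onP (K := K) s e i
      have h2 := pth_onP (K := K) s' e' j
      rw [h] at h1
      rw [onP_iff] at h1 h2
      simp only at h1 h2
      omega) (by
      rw [eB_iff]
      right; right
      exact ⟨_, hq, pth_onP _ _ _, pth_onP _ _ _⟩)).1)
  have e1 : pth K s e 0 = (0, s, 0, 0) := by simp [pth]
  have e2 : pth K s e (K + 1) = (0, e, 0, 0) := by simp [pth]
  have e3 : pth K s' e' 0 = (0, s', 0, 0) := by simp [pth]
  have e4 : pth K s' e' (K + 1) = (0, e', 0, 0) := by simp [pth]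
  rw [e1, e2, e3, e4] at key
  exact key

/-- The position of a label. -/
def ps (L : ℕ) (y : ℕ → ℕ) (u : Lb) : ℕ :=
  if u.1 = 0 then y u.2.1 else
    if u.1 = 1 then (if y u.2.1 ≤ y u.2.2.1 then min (y u.2.1 + u.2.2.2) (y u.2.2.1) else
      max (y u.2.1 - u.2.2.2) (y u.2.2.1)) else
    if u.2.1 < 2 then 0 else L

theorem ps_between {L : ℕ} {y : ℕ → ℕ} {p : ℕ × ℕ} {u : Lb} (h : onP p u = true) :
    min (y p.1) (y p.2) ≤ ps L y u ∧ ps L y u ≤ max (y p.1) (y p.2) := by
  rw [onP_iff] at h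
  unfold ps
  rcases h with ⟨h1, h2⟩ | ⟨h1, h2, h3⟩
  · rw [if_pos h1]
    rcases h2 with h2 | h2 <;> rw [h2] <;> omega
  · rw [if_neg (by omega), if_pos h1, h2, h3]
    split_ifs <;> omega

/-- Completeness. -/
theorem complete {L : ℕ} (hL : 2 ≤ L) (hK : L ≤ K) (y : ℕ → ℕ) (hy : ∀ s < n, y s ≤ L)
    (hap : ∀ q ∈ A, max (y q.1.1) (y q.1.2) + 2 ≤ min (y q.2.1) (y q.2.2) ∨
      max (y q.2.1) (y q.2.2) + 2 ≤ min (y q.1.1) (y q.1.2)) :
    GenPCGRecognition (redI n K A) := by
  classical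
  have hps : ∀ u ∈ vsL n K, ps L y u ≤ L := by
    intro u hu
    rw [mem_vsL] at hu
    unfold ps
    rcases hu with ⟨h1, h2, _⟩ | ⟨h1, h2, h3, _⟩ | ⟨h1, _⟩
    · rw [if_pos h1]
      exact hy _ h2
    · rw [if_neg (by omega), if_pos h1]
      have g1 := hy _ h2
      have g2 := hy _ h3
      split_ifs <;> omega
    · rw [if_neg (by omega), if_neg (by omega)]
      split_ifs <;> omega
  have hY : ∀ i, ps L y (lb n K A i) ≤ L := fun i => hps _ (lb_mem i)
  have hL0 : 0 < L := lt_of_lt_of_le two_pos hL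
  let w : Fin (redI n K A).1.length → ℝ := fun i => if (lb n K A i).1 = 2 then (L : ℝ) + 1 else 1
  have hw : ∀ i, 0 < w i := by
    intro i
    simp only [w]
    split_ifs <;> positivity
  obtain ⟨a, ha⟩ := exists_lb (n := n) (K := K) (A := A) (u := (2, 0, 0, 0)) (by
    rw [mem_vsL]; simp)
  obtain ⟨b, hb⟩ := exists_lb (n := n) (K := K) (A := A) (u := (2, 2, 0, 0)) (by
    rw [mem_vsL]; simp)
  have ha' : ps L y (lb n K A a) = 0 := by rw [ha]; simp [ps]
  have hb' : ps L y (lb n K A b) = L := by rw [hb]; simp [ps]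
  have hL2 : (2 : ℝ) ≤ L := by exact_mod_cast hL
  have hd := catTree_d (L := L) (y := fun i => ps L y (lb n K A i)) hY w hw hL0 a b ha' hb'
  refine ⟨catTree hY w hw hL0 a b ha' hb', 4, 2 * L + 2, by norm_num, by linarith, ?_, ?_⟩
  · -- edges
    have key : ∀ i j, i ≠ j → eB A (lb n K A i) (lb n K A j) = true →
        4 ≤ w i + w j + |((ps L y (lb n K A j) : ℕ) : ℝ) - (ps L y (lb n K A i) : ℕ)| ∧
        w i + w j + |((ps L y (lb n K A j) : ℕ) : ℝ) - (ps L y (lb n K A i) : ℕ)| ≤ 2 * L + 2 := by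
      intro i j hij he
      have m1 := lb_mem (A := A) i
      have m2 := lb_mem (A := A) j
      have b1 : (ps L y (lb n K A i) : ℝ) ≤ L := by exact_mod_cast hY i
      have b2 : (ps L y (lb n K A j) : ℝ) ≤ L := by exact_mod_cast hY j
      have b3 : (0 : ℝ) ≤ (ps L y (lb n K A i) : ℕ) := by positivity
      have b4 : (0 : ℝ) ≤ (ps L y (lb n K A j) : ℕ) := by positivity
      rw [mem_vsL] at m1 m2
      rw [eB_iff] at he
      rcases he with ⟨h1, h2⟩ | ⟨h1, h2, h3, h4⟩ | ⟨q, hq, h1, h2⟩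
      · have w1 : w i = L + 1 := by simp only [w]; rw [if_pos h1]
        have w2 : w j = 1 := by simp only [w]; rw [if_neg (by omega)]
        rw [w1, w2]
        have c1 := abs_nonneg (((ps L y (lb n K A j) : ℕ) : ℝ) - (ps L y (lb n K A i) : ℕ))
        have c2 : |((ps L y (lb n K A j) : ℕ) : ℝ) - (ps L y (lb n K A i) : ℕ)| ≤ L := by
          rw [abs_le]
          constructor <;> linarith
        constructor <;> linarith
      · have w1 : w i = L + 1 := by simp only [w]; rw [if_pos h1]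
        have w2 : w j = L + 1 := by simp only [w]; rw [if_pos h2]
        have e : ps L y (lb n K A j) = ps L y (lb n K A i) := by
          have e1 : ∀ u : Lb, u.1 = 2 → ps L y u = if u.2.1 < 2 then 0 else L := by
            intro u hu
            unfold ps
            rw [if_neg (by omega), if_neg (by omega)]
          rw [e1 _ h1, e1 _ h2]
          split_ifs <;> omega
        rw [w1, w2, e, sub_self, abs_zero]
        constructor <;> linarith
      · have g1 := ps_between (L := L) (y := y) h1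
        have g2 := ps_between (L := L) (y := y) h2
        have g3 := hap q hq
        rw [onP_iff] at h1 h2
        have w1 : w i = 1 := by simp only [w]; rw [if_neg (by omega)]
        have w2 : w j = 1 := by simp only [w]; rw [if_neg (by omega)]
        rw [w1, w2]
        have c2 : |((ps L y (lb n K A j) : ℕ) : ℝ) - (ps L y (lb n K A i) : ℕ)| ≤ L := by
          rw [abs_le]
          constructor <;> linarith
        have c3 : (2 : ℝ) ≤ |((ps L y (lb n K A j) : ℕ) : ℝ) - (ps L y (lb n K A i) : ℕ)| := by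
          rw [le_abs]
          rcases g3 with g3 | g3
          · left
            have : ps L y (lb n K A i) + 2 ≤ ps L y (lb n K A j) := by omega
            have : ((ps L y (lb n K A i) : ℕ) : ℝ) + 2 ≤ (ps L y (lb n K A j) : ℕ) := by
              exact_mod_cast this
            linarith
          · right
            have : ps L y (lb n K A j) + 2 ≤ ps L y (lb n K A i) := by omega
            have : ((ps L y (lb n K A j) : ℕ) : ℝ) + 2 ≤ (ps L y (lb n K A i) : ℕ) := by
              exact_mod_cast this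
            linarith
        constructor <;> linarith
    intro i j hij
    rw [adj_redI] at hij
    rw [LeafTree.pcg, SimpleGraph.fromRel_adj]
    refine ⟨hij.1, ?_⟩
    rw [hd i j hij.1, hd j i hij.1.symm]
    rcases hij.2 with h | h
    · left
      exact key i j hij.1 h
    · right
      exact key j i hij.1.symm h
  · -- marked pairs
    have key : ∀ i j, i ≠ j → sB K (lb n K A i) (lb n K A j) = true →
        ¬ (4 ≤ w i + w j + |((ps L y (lb n K A j) : ℕ) : ℝ) - (ps L y (lb n K A i) : ℕ)| ∧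
        w i + w j + |((ps L y (lb n K A j) : ℕ) : ℝ) - (ps L y (lb n K A i) : ℕ)| ≤ 2 * L + 2) := by
      intro i j hij hs
      have m1 := lb_mem (A := A) i
      have m2 := lb_mem (A := A) j
      rw [mem_vsL] at m1 m2
      rw [sB_iff] at hs
      by_cases h2 : (lb n K A i).1 = 2
      · have w1 : w i = L + 1 := by simp only [w]; rw [if_pos h2]
        have w2 : w j = L + 1 := by simp only [w]; rw [if_pos (by omega)]
        have e1 : ps L y (lb n K A i) = 0 := by
          unfold ps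
          rw [if_neg (by omega), if_neg (by omega), if_pos (by omega)]
        have e2 : ps L y (lb n K A j) = L := by
          unfold ps
          rw [if_neg (by omega), if_neg (by omega), if_neg (by omega)]
        rw [w1, w2, e1, e2]
        rintro ⟨-, h⟩
        rw [Nat.cast_zero, sub_zero, abs_of_nonneg (by linarith)] at h
        linarith
      · have w1 : w i = 1 := by simp only [w]; rw [if_neg h2]
        have w2 : w j = 1 := by simp only [w]; rw [if_neg (by omega)]
        have hclose : ps L y (lb n K A j) ≤ ps L y (lb n K A i) + 1 ∧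
            ps L y (lb n K A i) ≤ ps L y (lb n K A j) + 1 := by
          rcases hs with ⟨h3, h4, h5, h6⟩ | ⟨h3, h4, h5, h6, h7⟩ | ⟨h3, h4, h5, h6⟩ | ⟨h3, _⟩
          · have p1 : ps L y (lb n K A i) = y (lb n K A i).2.1 := by
              unfold ps; rw [if_pos h3]
            have p2 : ps L y (lb n K A j) =
                if y (lb n K A i).2.1 ≤ y (lb n K A j).2.2.1 then
                  min (y (lb n K A i).2.1 + 1) (y (lb n K A j).2.2.1) else
                  max (y (lb n K A i).2.1 - 1) (y (lb n K A j).2.2.1) := by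
              unfold ps; rw [if_neg (by omega), if_pos h4, h5, h6]
            rw [p1, p2]
            split_ifs <;> omega
          · have p1 : ps L y (lb n K A i) =
                if y (lb n K A i).2.1 ≤ y (lb n K A i).2.2.1 then
                  min (y (lb n K A i).2.1 + (lb n K A i).2.2.2) (y (lb n K A i).2.2.1) else
                  max (y (lb n K A i).2.1 - (lb n K A i).2.2.2) (y (lb n K A i).2.2.1) := by
              unfold ps; rw [if_neg (by omega), if_pos h3]
            have p2 : ps L y (lb n K A j) =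
                if y (lb n K A i).2.1 ≤ y (lb n K A i).2.2.1 then
                  min (y (lb n K A i).2.1 + ((lb n K A i).2.2.2 + 1)) (y (lb n K A i).2.2.1) else
                  max (y (lb n K A i).2.1 - ((lb n K A i).2.2.2 + 1)) (y (lb n K A i).2.2.1) := by
              unfold ps; rw [if_neg (by omega), if_pos h4, h5, h6, h7]
            rw [p1, p2]
            split_ifs <;> omega
          · have q1 := hy (lb n K A i).2.1 (by omega)
            have q2 := hy (lb n K A i).2.2.1 (by omega)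
            have p1 : ps L y (lb n K A i) =
                if y (lb n K A i).2.1 ≤ y (lb n K A i).2.2.1 then
                  min (y (lb n K A i).2.1 + K) (y (lb n K A i).2.2.1) else
                  max (y (lb n K A i).2.1 - K) (y (lb n K A i).2.2.1) := by
              unfold ps; rw [if_neg (by omega), if_pos h3, h6]
            have p2 : ps L y (lb n K A j) = y (lb n K A i).2.2.1 := by
              unfold ps; rw [if_pos h4, h5]
            rw [p1, p2]
            split_ifs <;> omega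
          · omega
        rw [w1, w2]
        rintro ⟨h, -⟩
        have h8 : ((ps L y (lb n K A j) : ℕ) : ℝ) ≤ (ps L y (lb n K A i) : ℕ) + 1 := by
          exact_mod_cast hclose.1
        have h9 : ((ps L y (lb n K A i) : ℕ) : ℝ) ≤ (ps L y (lb n K A j) : ℕ) + 1 := by
          exact_mod_cast hclose.2
        have : |((ps L y (lb n K A j) : ℕ) : ℝ) - (ps L y (lb n K A i) : ℕ)| ≤ 1 := by
          rw [abs_le]
          constructor <;> linarith
        linarith
    intro i j hij
    rw [marked_redI] at hij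
    obtain ⟨⟨h1, h2⟩, h3⟩ := hij
    rw [LeafTree.pcg, SimpleGraph.fromRel_adj]
    rintro ⟨-, h4⟩
    rw [hd i j h1, hd j i h1.symm] at h4
    have e : w j + w i + |((ps L y (lb n K A i) : ℕ) : ℝ) - (ps L y (lb n K A j) : ℕ)| =
        w i + w j + |((ps L y (lb n K A j) : ℕ) : ℝ) - (ps L y (lb n K A i) : ℕ)| := by
      rw [abs_sub_comm]
      ring
    rw [e, or_self] at h4
    rcases h3 with h3 | h3
    · exact key i j h1 h3 h4
    · rw [← e] at h4
      exact key j i h1.symm h3 h4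

end Graph

end Pool.Agent.N585.PCG
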